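import Mathlib
import Pool.Agent.H5Reg.Final
import Pool.Agent.H5Reg.Sanity

set_option autoImplicit false

namespace Pool.Agent.Results.MP_0205ad_al.RegChordal

open Pool.Agent.H5Reg

/-- For every field `K` and every chordal graph `G` on `n` vertices without isolated vertices,
with `NI` the neighbourhood ideal of `G` for its degree-vector,
`reg(S/NI) + c(G) ≤ τ(G)`, that is `reg(S/NI) ≤ τ(G) - c(G)`. -/
theorem result : ∀ (K : Type*) [Field K] (n : ℕ) (G : SimpleGraph (Fin n)),
    Chordal G → (∀ v, ∃ w, G.Adj v w) →
    reg (degNI K G) + (Nat.card G.ConnectedComponent : WithBot ℕ∞) ≤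
      (G.vertexCoverNum : WithBot ℕ∞) := by
  intro K _ n G hch _
  exact reg_bound hch

end Pool.Agent.Results.MP_0205ad_al.RegChordal
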